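import Pool.Agent.R493.MS.Edge

/-!
# Gaussian disorder, `d ≥ 4`: the effective mobility edge to the fourth order

`H_σ = Δ + σ ξ` on `ℤ^d`, `d ≥ 4`, `(Δψ)(x) = ∑_{|y-x|=1} ψ(y)`, iid standard Gaussian `ξ`, weak
coupling.  The effective band edge is
`Es(σ) = 2d + G_d σ² + M_d σ⁴ + O(σ⁶)`,
where `G_d = ∫ dp / λ(p)` is the Green function at the origin and
`M_d = ∫∫ dp dq / (λ(p) λ(q) λ(p+q))` (a convergent integral) is the
sunset integral, `λ(p) = ∑ (2 - 2 cos 2πp_i)`: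
* there is exponential localization at the energies `|E| ≥ Es(σ) + κ`, `κ ≥ exp(-k/σ²)`
  (`exp(-k/σ)` if `d = 4`);
* with probability at least `1 - exp(-k/σ²)` every `ℓ²`-eigenfunction `u` with `|E| ≥ Es(σ) - κ`
  satisfies `|u(x)|² ≤ K κ^{d/2} ‖u‖²` at all sites `x` of the box of radius `exp(k/σ²)`;
* on tori of side `L ≤ exp(k/σ²)` the top eigenvector is flat and the top eigenvalue is
  `Es(σ) + O(1/L²)`.
-/

set_option autoImplicit false

open scoped BigOperators ENNReal Topology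
open MeasureTheory ProbabilityTheory Filter

namespace Pool.Agent.Results.MP_1906c1_mp.EdgeFourthOrder

open Pool.Agent.Results.MP_1906c1_mp.ScaleAtEdge (H HT T sc SpreadOut Localized)

/-- the symbol of the lattice Laplacian -/
noncomputable def symbol {d : ℕ} (x : Fin d → ℝ) : ℝ :=
  ∑ i, (2 - 2 * Real.cos (2 * Real.pi * x i))

/-- the unit cube -/
def cube (d : ℕ) : Set (Fin d → ℝ) := Set.pi Set.univ fun _ : Fin d => Set.Icc (0 : ℝ) 1

/-- the Green function of the lattice Laplacian at the origin, `∫ dx / λ(x)` -/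
noncomputable def G (d : ℕ) : ℝ := ∫ x in cube d, (symbol x)⁻¹

/-- the sunset integral `∫∫ dx dy / (λ(x) λ(y) λ(x+y))` -/
noncomputable def M (d : ℕ) : ℝ :=
  ∫ x in cube d, ∫ y in cube d, (symbol x * symbol y * symbol (x + y))⁻¹

/-- **Theorem.** -/
theorem result (d : ℕ) (hd : 4 ≤ d) :
    -- the sunset integral converges and is positive
    IntegrableOn (fun z : (Fin d → ℝ) × (Fin d → ℝ) =>
      (symbol z.1 * symbol z.2 * symbol (z.1 + z.2))⁻¹) (cube d ×ˢ cube d) ∧ 0 < M d ∧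
    ∀ η : ℝ, 0 < η → η ≤ 1 → ∃ k K C : ℝ, 0 < k ∧ 0 < K ∧ ∀ σ : ℝ, 0 < σ → σ ≤ k → ∃ Es : ℝ,
      -- the effective edge to the fourth order
      |Es - (2 * d + G d * σ ^ 2 + M d * σ ^ 4)| ≤ C * σ ^ 6 ∧
        -- (1) on `ℤ^d`: `ℓ²`-eigenfunctions with `|E| ≥ Es - κ` are spread out
        (∃ A : Set ((Fin d → ℤ) → ℝ), MeasurableSet A ∧
          1 - Real.exp (-(k * sc d σ)) ≤
            (Measure.infinitePi fun _ : Fin d → ℤ => gaussianReal 0 1).real A ∧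
          ∀ ξ ∈ A, ∀ κ : ℝ, Real.exp (-(k * sc d σ)) ≤ κ → κ ≤ 1 → ∀ E : ℝ, Es - κ ≤ |E| →
            SpreadOut σ ξ E (K * κ ^ ((d : ℝ) / 2)) (Real.exp (k * sc d σ))) ∧
        -- (2) on tori the top eigenvector is flat, the top eigenvalue is `Es + O(1/L²)`
        (∀ (L : ℕ) [NeZero L], (L : ℝ) ≤ Real.exp (k * sc d σ) →
          ∃ A : Set (T d L → ℝ), MeasurableSet A ∧
            1 - Real.exp (-(k * sc d σ)) ≤ (Measure.pi fun _ : T d L => gaussianReal 0 1).real A ∧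
            ∀ ξ ∈ A, ∃ (E : ℝ) (ψ : T d L → ℝ), |E - Es| ≤ K / (L : ℝ) ^ 2 ∧
              (∀ x, 1 ≤ ψ x ∧ ψ x ≤ 1 + η) ∧ ∀ x, HT σ ξ ψ x = E * ψ x) ∧
        -- (3) exponential localization for `|E| ≥ Es + κ`
        ∀ κ : ℝ, Real.exp (-(k * sc d σ)) ≤ κ → κ ≤ 1 →
          ∀ᵐ ξ ∂(Measure.infinitePi fun _ : Fin d → ℤ => gaussianReal 0 1),
            Localized (H σ ξ) {E | Es + κ ≤ |E|}
              (k * Real.sqrt κ / Real.log (2 / (κ * σ))) := by
  have hM : M d = Pool.Agent.R493.MS.Sun d := (Pool.Agent.R493.MS.Sun_eq d hd).symm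
  refine ⟨Pool.Agent.R493.MS.Sun_intOn d hd, by rw [hM]; exact Pool.Agent.R493.MS.Sun_pos d hd, ?_⟩
  rw [hM]
  exact Pool.Agent.R493.MS.edge d hd

end Pool.Agent.Results.MP_1906c1_mp.EdgeFourthOrder
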