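import Pool.Agent.Results.MP_1906c1_mp.ScaleAtEdge
import Pool.Agent.W788.BK.Fin
import Pool.Agent.W193.BK.ES
import Pool.Agent.W240.BK.Var
import Pool.Agent.W540.BK.Fac
import Pool.Agent.W240.BK.Fluct
import Pool.Agent.W340.BK.Conc
import Pool.Agent.W918.BK.Osc
import Pool.Agent.W240.BK.Two
import Pool.Agent.W465.BK.QB
import Pool.Agent.W475.BK.Low
import Pool.Agent.W975.BK.Sup
import Pool.Agent.W790.BK.ADM
import Pool.Agent.W475.BK.Inv
import Pool.Agent.W351.BK.Mb
import Pool.Agent.W363.BK.Site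
import Pool.Agent.W261.BK.Third
import Pool.Agent.R988.GF
import Pool.Agent.R988.GG

/-!
# Gaussian disorder, `d ≥ 3`: at all energies states are spread out far beyond the kinetic scale

`H_σ = Δ + σ ξ` on `ℤ^d`, `d ≥ 3`, `(Δψ)(x) = ∑_{|y-x|=1} ψ(y)`, iid standard Gaussian `ξ`, weak
coupling. Let `0 < δ ≤ 1`. With probability at least `1 - exp(-σ^{-δ/200})`
* every spectral measure `m` of a vector `g` supported in the box of radius `exp(σ^{-δ/200})`
  satisfies `m [E - s, E + s] ≤ K log(1/σ) s ‖g‖₁²` at all real energies `E`, for all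
  `s ≥ σ^{17/8 - δ}`;
* every `ℓ²`-eigenfunction `u`, at whatever energy, satisfies
  `|u(x)|² ≤ K log(1/σ) σ^{17/8 - δ} ‖u‖²` at all sites of that box.
`K` depends only on `d`. The natural kinetic scale is `σ²`.
-/

set_option autoImplicit false

open scoped BigOperators
open MeasureTheory ProbabilityTheory

namespace Pool.Agent.Results.MP_1906c1_mp.FlatAllEnergies

open Pool.Agent.Results.MP_1906c1_mp.ScaleAtEdge
open Pool.Agent.W788.BK Pool.Agent.W788.BK.Num

theorem H_S {d : ℕ} (σ : ℝ) (ξ : (Fin d → ℤ) → ℝ) (u : (Fin d → ℤ) → ℂ) (x : Fin d → ℤ) :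
    -Pool.Agent.W788.LD.Spec.S u x + ((0 - σ * ξ x : ℝ) : ℂ) * u x = -H σ ξ u x := by
  unfold H Pool.Agent.W788.LD.Spec.S
  push_cast
  ring

/-- **Theorem.** -/
theorem result (d : ℕ) (hd : 3 ≤ d) :
    ∃ K : ℝ, 0 < K ∧ ∀ δ : ℝ, 0 < δ → δ ≤ 1 → ∃ σ0 : ℝ, 0 < σ0 ∧
      ∀ σ : ℝ, 0 < σ → σ ≤ σ0 →
      ∃ G : Set ((Fin d → ℤ) → ℝ), MeasurableSet G ∧
        1 - Real.exp (-σ ^ (-(δ / 200))) ≤
          (Measure.infinitePi fun _ : Fin d → ℤ => gaussianReal 0 1).real G ∧
        ∀ ξ ∈ G,
          (∀ (g : (Fin d → ℤ) → ℂ) (B : Finset (Fin d → ℤ)),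
            (∀ a ∈ B, ‖a‖ ≤ Real.exp (σ ^ (-(δ / 200)))) → (∀ a, a ∉ B → g a = 0) →
            ∀ m : Measure ℝ, IsSpectralMeasure (H σ ξ) g m →
            ∀ E s : ℝ, σ ^ (17 / 8 - δ) ≤ s →
            m.real (Set.Icc (E - s) (E + s)) ≤
              K * Real.log (1 / σ) * s * (∑ a ∈ B, ‖g a‖) ^ 2) ∧
          (∀ (E : ℝ) (u : (Fin d → ℤ) → ℂ), SqSummable u →
            (∀ x, H σ ξ u x = (E : ℂ) * u x) →
            ∀ a : Fin d → ℤ, ‖a‖ ≤ Real.exp (σ ^ (-(δ / 200))) →
            ‖u a‖ ^ 2 ≤ K * Real.log (1 / σ) * σ ^ (17 / 8 - δ) * ∑' x, ‖u x‖ ^ 2) := by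
  have hC1 := C1_ge
  obtain ⟨y0, h0⟩ := engine
    (Pool.Agent.W261.BK.third Pool.Agent.W540.BK.fac)
    (Pool.Agent.W240.BK.fluct (Pool.Agent.W240.BK.var Pool.Agent.W193.BK.ES.es))
    Pool.Agent.W475.BK.inv Pool.Agent.W351.BK.mb
    (Pool.Agent.W340.BK.Conc.conc Pool.Agent.W193.BK.ES.es)
    Pool.Agent.W975.BK.sup Pool.Agent.W363.BK.site
    (Pool.Agent.W465.BK.qb (Pool.Agent.W240.BK.two Pool.Agent.W918.BK.Osc.osc))
    Pool.Agent.W475.BK.low Pool.Agent.W790.BK.ADM.adm d hd 1 one_pos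
  refine ⟨20 * (384 * (C1 * (17 / 8))), by positivity, fun δ hδ hδ1 => ?_⟩
  have hd0 : (0 : ℝ) ≤ d := Nat.cast_nonneg d
  obtain ⟨Y1, hY1⟩ := Filter.eventually_atTop.1 ((Filter.eventually_ge_atTop (1 : ℝ)).and
    ((Filter.eventually_ge_atTop (2 * |y0|)).and
    ((ev2 (6 * d + 8) (δ / 200) (δ / 2) 0 (by linarith)).and
    ((ev2 2 (1 / 200) (3 / 400) 0 (by norm_num)).and
    (ev2 (2 * d + 3) 0 (δ / 200) 1 (by linarith))))))
  refine ⟨Real.exp (-Y1), Real.exp_pos _, fun σ hσ hσ0 => ?_⟩
  obtain ⟨Y, hY⟩ : ∃ Y, Y = Real.log (1 / σ) := ⟨_, rfl⟩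
  have hlog : Real.log σ = -Y := by
    rw [hY, one_div, Real.log_inv, neg_neg]
  have hYY : Y1 ≤ Y := by
    have h1 := Real.log_le_log hσ hσ0
    rw [Real.log_exp, hlog] at h1
    linarith
  obtain ⟨n1, n2, n3, n4, n5⟩ := hY1 Y hYY
  simp only [pow_zero, mul_one, pow_one, zero_mul, Real.exp_zero] at n3 n4 n5
  have hrp : ∀ p : ℝ, σ ^ p = Real.exp (-p * Y) := by
    intro p
    rw [Real.rpow_def_of_pos hσ, hlog]
    congr 1
    ring
  obtain ⟨X, hX⟩ : ∃ X, X = Real.exp (δ / 200 * Y) := ⟨_, rfl⟩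
  have e1 : σ ^ (-(δ / 200)) = X := by
    rw [hrp, hX]
    congr 1
    ring
  rw [e1, ← hY]
  have hX0 : 0 < X := by rw [hX]; positivity
  have hX1 : 1 ≤ X := by
    rw [hX]
    exact Real.one_le_exp (by positivity)
  rw [← hX] at n3 n5
  -- the parameters
  obtain ⟨y, hy⟩ : ∃ y, y = (1 - δ / 4) * Y := ⟨_, rfl⟩
  have hyY : 3 / 4 * Y ≤ y := by
    rw [hy]
    have : 0 ≤ Y := by linarith
    nlinarith
  have hyY' : y ≤ Y := by
    rw [hy]
    have : 0 ≤ δ * Y := by positivity
    linarith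
  have hyy0 : y0 ≤ y := by
    have := le_abs_self y0
    have := abs_nonneg y0
    linarith
  have hy0 : 0 < y := by linarith
  obtain ⟨B, hB⟩ : ∃ B, B = Real.exp (δ / 4 * Y) := ⟨_, rfl⟩
  have hB0 : 0 < B := by rw [hB]; positivity
  have hσe : σ = Real.exp (-Y) := by
    rw [← hlog, Real.exp_log hσ]
  have hσB : σ = Real.exp (-1 * y) / B := by
    rw [hσe, hB, hy, ← Real.exp_sub]
    congr 1
    ring
  obtain ⟨t, ht⟩ : ∃ t, t = Real.exp (-(17 / 8) * y) := ⟨_, rfl⟩
  have ht0 : 0 < t := by rw [ht]; positivity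
  have htσ : t ≤ σ ^ (17 / 8 - δ) := by
    rw [hrp, ht]
    apply Real.exp_le_exp.2
    rw [hy]
    have : 0 ≤ δ * Y := by positivity
    linarith
  have ht1 : t ≤ 1 / 2 := by
    have h1 : t ≤ Real.exp (-1) := by
      rw [ht]
      apply Real.exp_le_exp.2
      linarith
    have h2 : Real.exp (-1) ≤ 1 / 2 := by
      rw [Real.exp_neg, one_div]
      apply inv_anti₀ (by norm_num)
      have := Real.exp_one_gt_d9
      linarith
    linarith
  have hρ : Real.exp X ≤ Real.exp (Real.exp (y / 100)) := by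
    apply Real.exp_le_exp.2
    rw [hX]
    apply Real.exp_le_exp.2
    have : 0 ≤ (1 - δ) * Y := mul_nonneg (by linarith) (by linarith)
    linarith
  have hℓ : 2 * d ≤ t * Real.exp X := by
    have h1 : Real.exp (2 * d) * Real.exp (-X) ≤ t := by
      rw [← Real.exp_add, ht]
      apply Real.exp_le_exp.2
      nlinarith
    have h2 : (2 * d : ℝ) ≤ Real.exp (2 * d) := by
      have := Real.add_one_le_exp (2 * d : ℝ)
      linarith
    calc (2 * d : ℝ) ≤ Real.exp (2 * d) := h2
      _ = Real.exp (2 * d) * Real.exp (-X) * Real.exp X := by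
          rw [mul_assoc, ← Real.exp_add]
          simp
      _ ≤ t * Real.exp X := by gcongr
  -- the events
  obtain ⟨Γ, hΓ, hΓP, hΓL⟩ := h0 y hyy0 (Pool.Agent.R988.GG.nu B) inferInstance
    (Pool.Agent.R988.GG.nu_bdd B) (Pool.Agent.R988.GG.nu_mean B)
  obtain ⟨n, hn⟩ : ∃ n : ℕ, n = ⌈2 * Real.exp X⌉₊ := ⟨_, rfl⟩
  have hn1 : 2 * Real.exp X ≤ n := by
    rw [hn]
    exact Nat.le_ceil _
  have hn2 : (n : ℝ) < 2 * Real.exp X + 1 := by
    rw [hn]
    exact Nat.ceil_lt_add_one (by positivity)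
  have hTm : Measurable (fun (ξ : (Fin d → ℤ) → ℝ) x => Pool.Agent.R988.GG.cl B (ξ x)) :=
    measurable_pi_iff.2 fun x => (Pool.Agent.R988.GG.cl_meas B).comp (measurable_pi_apply x)
  refine ⟨(fun ξ x => Pool.Agent.R988.GG.cl B (ξ x)) ⁻¹' Γ ∩ Pool.Agent.R988.GG.ev d n B,
    (hTm hΓ).inter (Pool.Agent.R988.GG.ev_meas n B), ?_, fun ξ hξ => ?_⟩
  · obtain ⟨P, hP⟩ : ∃ P, P = Measure.infinitePi fun _ : Fin d → ℤ => gaussianReal 0 1 := ⟨_, rfl⟩
    have h1 : P.real ((fun ξ x => Pool.Agent.R988.GG.cl B (ξ x)) ⁻¹' Γ) =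
        (Measure.infinitePi fun _ : Fin d → ℤ => Pool.Agent.R988.GG.nu B).real Γ := by
      rw [← Pool.Agent.R988.GG.law, map_measureReal_apply hTm hΓ, hP]
    have h2 := Pool.Agent.R988.GG.ev_prob (d := d) n B hB0
    rw [← hP] at h2 ⊢
    have hPp : IsProbabilityMeasure P := by rw [hP]; infer_instance
    have h3 : P.real ((fun ξ x => Pool.Agent.R988.GG.cl B (ξ x)) ⁻¹' Γ) +
        P.real (Pool.Agent.R988.GG.ev d n B) - 1 ≤
        P.real ((fun ξ x => Pool.Agent.R988.GG.cl B (ξ x)) ⁻¹' Γ ∩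
          Pool.Agent.R988.GG.ev d n B) := by
      have h4 := measureReal_union_add_inter (μ := P)
        (s := (fun (ξ : (Fin d → ℤ) → ℝ) x => Pool.Agent.R988.GG.cl B (ξ x)) ⁻¹' Γ)
        (Pool.Agent.R988.GG.ev_meas (d := d) n B)
      have h5 : P.real ((fun ξ x => Pool.Agent.R988.GG.cl B (ξ x)) ⁻¹' Γ ∪
          Pool.Agent.R988.GG.ev d n B) ≤ 1 := measureReal_le_one
      linarith
    rw [h1] at h3
    refine le_trans ?_ h3
    have h6 : Real.exp (-Real.exp (y / 100)) ≤ 1 / 2 * Real.exp (-X) := by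
      have h7 : X + 1 ≤ Real.exp (y / 100) := by
        have h8 : Real.exp (3 / 400 * Y) ≤ Real.exp (y / 100) := by
          apply Real.exp_le_exp.2
          linarith
        have h9 : X ≤ Real.exp (1 / 200 * Y) := by
          rw [hX]
          apply Real.exp_le_exp.2
          have : 0 ≤ (1 - δ) * Y := mul_nonneg (by linarith) (by linarith)
          linarith
        linarith
      calc Real.exp (-Real.exp (y / 100)) ≤ Real.exp (-1 + -X) := by
            apply Real.exp_le_exp.2
            linarith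
        _ = Real.exp (-1) * Real.exp (-X) := Real.exp_add _ _
        _ ≤ _ := by
            have h2 : Real.exp (-1) ≤ 1 / 2 := by
              rw [Real.exp_neg, one_div]
              apply inv_anti₀ (by norm_num)
              have := Real.exp_one_gt_d9
              linarith
            gcongr
    have h7 : (2 * n + 1 : ℝ) ^ d * (2 * Real.exp (-(B ^ 2 / 2))) ≤ 1 / 2 * Real.exp (-X) := by
      have h8 : (2 * n + 1 : ℝ) ≤ Real.exp (X + 2) := by
        have h9 : (1 : ℝ) ≤ Real.exp X := Real.one_le_exp hX0.le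
        have h10 : (7 : ℝ) ≤ Real.exp 2 := by
          have h11 := Real.exp_one_gt_d9
          have h12 : Real.exp 2 = Real.exp 1 * Real.exp 1 := by
            rw [← Real.exp_add]
            norm_num
          rw [h12]
          nlinarith
        rw [Real.exp_add]
        nlinarith
      have h9 : B ^ 2 = Real.exp (δ / 2 * Y) := by
        rw [hB, ← Real.exp_nat_mul]
        congr 1
        push_cast
        ring
      have h10 : (2 : ℝ) ≤ Real.exp 1 := by
        have := Real.exp_one_gt_d9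
        linarith
      calc (2 * n + 1 : ℝ) ^ d * (2 * Real.exp (-(B ^ 2 / 2))) ≤
          Real.exp (X + 2) ^ d * (Real.exp 1 * Real.exp (-(B ^ 2 / 2))) := by gcongr
        _ = Real.exp (d * (X + 2) + 1 - B ^ 2 / 2) := by
            rw [← Real.exp_nat_mul, ← Real.exp_add, ← Real.exp_add]
            congr 1
            ring
        _ ≤ Real.exp (-1 + -X) := by
            apply Real.exp_le_exp.2
            rw [h9]
            have h11 : (d : ℝ) * 1 ≤ d * X := by gcongr
            nlinarith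
        _ = Real.exp (-1) * Real.exp (-X) := Real.exp_add _ _
        _ ≤ _ := by
            have h2 : Real.exp (-1) ≤ 1 / 2 := by
              rw [Real.exp_neg, one_div]
              apply inv_anti₀ (by norm_num)
              have := Real.exp_one_gt_d9
              linarith
            gcongr
    linarith
  · have hSM : SM1 d σ (Real.exp X) t (2 * (192 * (C1 * (17 / 8 * y)))) ξ := by
      refine Pool.Agent.R988.GF.sm1_cut σ (Real.exp (-1 * y)) _ (Real.exp X) t _ (Real.exp X) ht0
        (by positivity) (Real.exp_pos _) hℓ hρ le_rfl ξ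
        (fun x => Pool.Agent.R988.GG.cl B (ξ x)) (fun x hx => ?_) (by
          have h1 := hΓL _ hξ.1
          rw [← ht] at h1
          exact h1)
      have h1 := Pool.Agent.R988.GG.ev_mem n B ξ hξ.2 x (hx.le.trans hn1)
      rw [Pool.Agent.R988.GG.cl_eq B _ hB0 h1, hσB]
      ring
    obtain ⟨f1, f2⟩ := flat1 σ (Real.exp X) t _ ht0 ht1 (by positivity) ξ hSM
      (fun x => 0 - σ * ξ x) 0 (fun x => rfl)
    have hYC : 20 * (2 * (192 * (C1 * (17 / 8 * y)))) ≤ 20 * (384 * (C1 * (17 / 8))) * Y := by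
      have : 0 ≤ C1 * (Y - y) := mul_nonneg (by linarith) (by linarith)
      nlinarith
    constructor
    · intro g S hS hgS m hm E s hs
      have hmf := hm.1
      have hs0 : 0 < s := ht0.trans_le (htσ.trans hs)
      have h1 := f1 g S hS hgS (m.map fun x => -x) inferInstance (fun z hz => ?_) (-E) s
        (htσ.trans hs)
      · have h2 : (m.map fun x => -x).real (Set.Icc (-E - s) (-E + s)) =
            m.real (Set.Icc (E - s) (E + s)) := by
          rw [map_measureReal_apply measurable_neg measurableSet_Icc]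
          congr 1
          ext x
          simp only [Set.mem_preimage, Set.mem_Icc]
          constructor
          · rintro ⟨h3, h4⟩
            constructor <;> linarith
          · rintro ⟨h3, h4⟩
            constructor <;> linarith
        rw [h2] at h1
        refine h1.trans ?_
        have h3 : 0 ≤ (∑ a ∈ S, ‖g a‖) ^ 2 := sq_nonneg _
        gcongr
      · obtain ⟨u, hu, heq, hint⟩ := hm.2 (-z) (by
          rw [Complex.neg_im]
          exact neg_ne_zero.2 hz)
        refine ⟨fun x => -u x, by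
          simp only [norm_neg]
          exact hu, fun x => ?_, ?_⟩
        · have h2 := H_S σ ξ (fun x => -u x) x
          have h3 : H σ ξ (fun x => -u x) x = -H σ ξ u x := by
            unfold H
            simp only [mul_neg, neg_add_rev, Finset.sum_add_distrib, Finset.sum_neg_distrib]
            ring
          simp only
          rw [h2, h3]
          linear_combination heq x
        · rw [integral_map measurable_neg.aemeasurable (by
            apply Measurable.aestronglyMeasurable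
            fun_prop)]
          have h4 : (fun x : ℝ => (((-x : ℝ) : ℂ) - z)⁻¹) = fun x : ℝ => -(((x : ℂ) - -z)⁻¹) := by
            funext x
            rw [← inv_neg]
            congr 1
            push_cast
            ring
          rw [h4, integral_neg, hint, ← tsum_neg]
          exact tsum_congr fun x => by ring
    · intro E u hu heq a ha
      have h1 := f2 (-E) u hu (fun x => by
        rw [H_S, heq]
        push_cast
        ring) a ha
      refine h1.trans ?_
      have h3 : 0 ≤ ∑' x, ‖u x‖ ^ 2 := tsum_nonneg fun x => by positivity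
      have h4 : 5 * (2 * (192 * (C1 * (17 / 8 * y)))) ≤ 20 * (384 * (C1 * (17 / 8))) * Y := by
        have : 0 ≤ C1 * y := by positivity
        linarith
      have h5 : 0 ≤ 20 * (384 * (C1 * (17 / 8))) * Y := by positivity
      gcongr

end Pool.Agent.Results.MP_1906c1_mp.FlatAllEnergies
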