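import Pool.Agent.Results.MP_1906c1_mp.ScaleAtEdge
import Pool.Agent.R988.GV7

/-!
# Gaussian disorder, `d ≥ 3`: the particle is spread out at all times beyond the kinetic scale

`H_σ = Δ + σ ξ` on `ℤ^d`, `d ≥ 3`, `(Δψ)(x) = ∑_{|y-x|=1} ψ(y)`, iid standard Gaussian `ξ`. Let
`ψ_t = e^{-itH_σ} δ_0` and let `P_T(x)` be the probability to find the particle at `x` at an
independent exponential time of mean `T`.

For every `ε > 0` and `0 < σ ≤ σ₁(d, ε)`: for **all** times `T ≥ σ^{-(2 + 1/41)}`, without any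
upper restriction on the time, and for every coordinate `i`,

`E P_T({x : |x_i| ≤ σ^{-(2 + 1/84)}}) ≤ ε`.

The potential is unbounded. The resolvent profile at the scale `σ^{2 + 1/41}` is proved for the
clipped potential; for the Gaussian one the averaged characteristic function
`E ∑_x e^{ip·x} P_T(x)` still does not increase with `T`, and the two evolutions agree near the
origin up to a long time. The evolution exists for every potential.
-/

set_option autoImplicit false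

open scoped BigOperators ENNReal Topology
open MeasureTheory ProbabilityTheory Filter

namespace Pool.Agent.Results.MP_1906c1_mp.SpreadingAllTimesGaussian

open Pool.Agent.Results.MP_1906c1_mp.ScaleAtEdge

/-- `ψ` is the evolution `e^{-itH_σ} δ_0`: it starts at `δ_0`, solves the Schrödinger equation at
each site and has norm one in `ℓ²` at all times -/
structure IsEvolution {d : ℕ} (σ : ℝ) (ξ : (Fin d → ℤ) → ℝ) (ψ : ℝ → (Fin d → ℤ) → ℂ) : Prop where
  init : ψ 0 = Pi.single 0 1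
  ode : ∀ t x, HasDerivAt (fun s => ψ s x) (-Complex.I * H σ ξ (ψ t) x) t
  norm : ∀ t, HasSum (fun x => ‖ψ t x‖ ^ 2) 1

/-- the probability to find the particle at `x` at an independent exponential time of mean `T` -/
noncomputable def prob {d : ℕ} (ψ : ℝ → (Fin d → ℤ) → ℂ) (T : ℝ) (x : Fin d → ℤ) : ℝ :=
  1 / T * ∫ t in Set.Ioi (0 : ℝ), Real.exp (-t / T) * ‖ψ t x‖ ^ 2

/-- `P_T({x : |x_i| ≤ r})`, the probability to find the particle in the slab at an independent
exponential time of mean `T` -/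
noncomputable def slab {d : ℕ} (ψ : ℝ → (Fin d → ℤ) → ℂ) (T : ℝ) (i : Fin d) (r : ℝ) : ℝ :=
  ∑' x : Fin d → ℤ, if |(x i : ℝ)| ≤ r then prob ψ T x else 0

/-! ### Passage to the Laplacian -/

open Pool.Agent.TH794.QD (Sol)
open Pool.Agent.W788.LD.Spec (S)

open scoped ComplexConjugate in
theorem gauge {d : ℕ} (A B : ((Fin d → ℤ) → ℂ) → (Fin d → ℤ) → ℂ)
    (hAB : ∀ (t : ℝ) (u : (Fin d → ℤ) → ℂ) (x : Fin d → ℤ),
      2 * (d : ℂ) * (Complex.exp (-(2 * d * t : ℝ) * Complex.I) * conj (u x)) -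
        Complex.exp (-(2 * d * t : ℝ) * Complex.I) * conj (A u x) =
        B (fun x => Complex.exp (-(2 * d * t : ℝ) * Complex.I) * conj (u x)) x)
    (ψ : ℝ → (Fin d → ℤ) → ℂ) (h : ∀ t x, HasDerivAt (fun s => ψ s x) (-Complex.I * A (ψ t) x) t)
    (t : ℝ) (x : Fin d → ℤ) :
    HasDerivAt (fun s => Complex.exp (-(2 * d * s : ℝ) * Complex.I) * conj (ψ s x))
      (-Complex.I * B (fun x => Complex.exp (-(2 * d * t : ℝ) * Complex.I) * conj (ψ t x)) x) t := by
  have h1 : HasDerivAt (fun s : ℝ => Complex.exp (-(2 * d * s : ℝ) * Complex.I))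
      (Complex.exp (-(2 * d * t : ℝ) * Complex.I) * (-(2 * d : ℂ) * Complex.I)) t := by
    have h2 : HasDerivAt (fun s : ℝ => (-(2 * d * s : ℝ) : ℂ) * Complex.I)
        (-(2 * d : ℂ) * Complex.I) t := by
      have h3 : HasDerivAt (fun s : ℝ => ((s : ℝ) : ℂ)) 1 t := Complex.ofRealCLM.hasDerivAt
      have h4 := (h3.const_mul (-(2 * d : ℂ))).mul_const Complex.I
      rw [mul_one] at h4
      refine h4.congr_of_eventuallyEq (Eventually.of_forall fun s => ?_)
      simp only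
      push_cast
      ring
    exact h2.cexp
  have h5 := h1.mul (h t x).star
  refine h5.congr_deriv ?_
  rw [← hAB t (ψ t) x]
  change Complex.exp (-(2 * d * t : ℝ) * Complex.I) * (-(2 * d : ℂ) * Complex.I) * conj (ψ t x) +
    Complex.exp (-(2 * d * t : ℝ) * Complex.I) * conj (-Complex.I * A (ψ t) x) = _
  rw [map_mul, map_neg, Complex.conj_I]
  ring

theorem norm_gauge {d : ℕ} (t : ℝ) (z : ℂ) :
    ‖Complex.exp (-(2 * d * t : ℝ) * Complex.I) * (starRingEnd ℂ) z‖ = ‖z‖ := by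
  rw [norm_mul, RCLike.norm_conj]
  have h1 : (-(2 * d * t : ℝ) : ℂ) * Complex.I = ((-(2 * d * t) : ℝ) : ℂ) * Complex.I := by
    push_cast
    ring
  rw [h1, Complex.norm_exp_ofReal_mul_I, one_mul]

theorem S_gauge {d : ℕ} (c : ℂ) (u : (Fin d → ℤ) → ℂ) (x : Fin d → ℤ) :
    S (fun x => c * (starRingEnd ℂ) (u x)) x = c * (starRingEnd ℂ) (S u x) := by
  unfold S
  rw [map_sum, Finset.mul_sum]
  refine Finset.sum_congr rfl fun i _ => ?_
  rw [map_add]
  ring

theorem toSol {d : ℕ} {σ : ℝ} {ξ : (Fin d → ℤ) → ℝ} {ψ : ℝ → (Fin d → ℤ) → ℂ}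
    (h : IsEvolution σ ξ ψ) : Sol d (fun x => 2 * (d : ℝ) - σ * ξ x) 0
      fun t x => Complex.exp (-(2 * d * t : ℝ) * Complex.I) * (starRingEnd ℂ) (ψ t x) := by
  refine ⟨fun x => ?_, fun t x => ?_, fun t => ?_⟩
  · rw [h.init, Pi.single_apply]
    split_ifs <;> simp
  · refine gauge (H σ ξ) (fun u x => -S u x + ((2 * (d : ℝ) - σ * ξ x : ℝ) : ℂ) * u x)
      (fun t u x => ?_) ψ h.ode t x
    simp only
    rw [S_gauge]
    have e1 : H σ ξ u x = S u x + ((σ * ξ x : ℝ) : ℂ) * u x := rfl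
    rw [e1, map_add, map_mul, Complex.conj_ofReal]
    push_cast
    ring
  · simp only [norm_gauge]
    exact h.norm t

theorem ofSol {d : ℕ} {σ : ℝ} {ξ : (Fin d → ℤ) → ℝ} {ψ : ℝ → (Fin d → ℤ) → ℂ}
    (h : Sol d (fun x => 2 * (d : ℝ) - σ * ξ x) 0 ψ) : IsEvolution σ ξ
      fun t x => Complex.exp (-(2 * d * t : ℝ) * Complex.I) * (starRingEnd ℂ) (ψ t x) := by
  refine ⟨?_, fun t x => ?_, fun t => ?_⟩
  · funext x
    rw [h.init, Pi.single_apply]
    split_ifs <;> simp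
  · refine gauge (fun u x => -S u x + ((2 * (d : ℝ) - σ * ξ x : ℝ) : ℂ) * u x) (H σ ξ)
      (fun t u x => ?_) ψ h.ode t x
    have e1 : ∀ u x, H σ ξ u x = S u x + ((σ * ξ x : ℝ) : ℂ) * u x := fun u x => rfl
    rw [e1, S_gauge, map_add, map_mul, map_neg, Complex.conj_ofReal]
    push_cast
    ring
  · simp only [norm_gauge]
    exact h.norm t

/-- **Theorem.** -/
theorem result (d : ℕ) (hd : 3 ≤ d) (ε : ℝ) (hε : 0 < ε) :
    ∃ σ1 : ℝ, 0 < σ1 ∧ ∀ σ : ℝ, 0 < σ → σ ≤ σ1 →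
      (∀ ξ : (Fin d → ℤ) → ℝ, ∃ ψ, IsEvolution σ ξ ψ) ∧
      ∀ ψ : ((Fin d → ℤ) → ℝ) → ℝ → (Fin d → ℤ) → ℂ,
        (∀ᵐ ξ ∂(Measure.infinitePi fun _ : Fin d → ℤ => gaussianReal 0 1),
          IsEvolution σ ξ (ψ ξ)) →
        ∀ T : ℝ, σ ^ (-(2 + 1 / 41) : ℝ) ≤ T → ∀ i : Fin d,
          AEMeasurable (fun ξ => slab (ψ ξ) T i (σ ^ (-(2 + 1 / 84) : ℝ)))
            (Measure.infinitePi fun _ : Fin d → ℤ => gaussianReal 0 1) ∧
          ∫ ξ, slab (ψ ξ) T i (σ ^ (-(2 + 1 / 84) : ℝ))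
            ∂(Measure.infinitePi fun _ : Fin d → ℤ => gaussianReal 0 1) ≤ ε := by
  obtain ⟨c0, hc0, hc01, h⟩ := Pool.Agent.R988.Tor.S1Gw d (by omega) ε hε
  refine ⟨c0, hc0, fun σ hσ hle => ⟨fun ξ => ?_, fun ψ hψ T hT i => ?_⟩⟩
  · obtain ⟨ψ, hψ⟩ := Pool.Agent.R988.Tor.exists_solU (fun x => 2 * (d : ℝ) - σ * ξ x) 0
    exact ⟨_, ofSol hψ⟩
  · have hψ' : ∀ᵐ ξ ∂(Measure.infinitePi fun _ : Fin d → ℤ => gaussianReal 0 1),
        Sol d (fun x => 2 * (d : ℝ) - σ * ξ x) 0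
          (fun t x => Complex.exp (-(2 * d * t : ℝ) * Complex.I) * (starRingEnd ℂ) (ψ ξ t x)) := by
      filter_upwards [hψ] with ξ hξ
      exact toSol hξ
    have hTp : 0 < T := (Real.rpow_pos_of_pos hσ _).trans_le hT
    have hη : 1 / (2 * T) ≤ σ ^ (83 / 41 : ℝ) := by
      have e1 : (-(2 + 1 / 41) : ℝ) = -(83 / 41) := by norm_num
      rw [e1, Real.rpow_neg hσ.le] at hT
      rw [div_le_iff₀ (by positivity)]
      have hp : 0 < σ ^ (83 / 41 : ℝ) := Real.rpow_pos_of_pos hσ _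
      have h3 := mul_le_mul_of_nonneg_left hT hp.le
      rw [mul_inv_cancel₀ hp.ne'] at h3
      linarith
    have h3 := h σ hσ hle _ hψ' i (1 / (2 * T)) (by positivity) hη
    have e2 : (-(2 + 1 / 84) : ℝ) = -(169 / 84) := by norm_num
    have e3 : ∀ (φ : ℝ → (Fin d → ℤ) → ℂ) (r : ℝ), slab φ T i r = ∑' z : Fin d → ℤ,
        (if |(z i : ℝ)| ≤ r then (1 : ℝ) else 0) *
          Pool.Agent.R988.Tor.pb (1 / (2 * T))
            (fun t x => Complex.exp (-(2 * d * t : ℝ) * Complex.I) * (starRingEnd ℂ) (φ t x)) z := by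
      intro φ r
      unfold slab
      refine tsum_congr fun z => ?_
      have e4 : prob φ T z = Pool.Agent.R988.Tor.pb (1 / (2 * T))
            (fun t x => Complex.exp (-(2 * d * t : ℝ) * Complex.I) * (starRingEnd ℂ) (φ t x)) z := by
        unfold prob Pool.Agent.R988.Tor.pb
        have e5 : 2 * (1 / (2 * T)) = 1 / T := by field_simp
        rw [e5]
        congr 1
        refine integral_congr_ae (Eventually.of_forall fun t => ?_)
        simp only
        rw [norm_gauge]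
        congr 2
        ring
      rw [e4]
      split_ifs <;> simp
    simp only [e3, e2]
    exact h3

end Pool.Agent.Results.MP_1906c1_mp.SpreadingAllTimesGaussian
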