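import Pool.Agent.Results.MP_1906c1_mp.SpreadingAllTimesGaussian
import Pool.Agent.R988.GW5

/-!
# Gaussian disorder, `d ≥ 3`: the motion is far from ballistic at all times beyond the kinetic scale

`H_σ = Δ + σ ξ` on `ℤ^d`, `d ≥ 3`, `(Δψ)(x) = ∑_{|y-x|=1} ψ(y)`, iid standard Gaussian `ξ`. Let
`ψ_t = e^{-itH_σ} δ_0` and let `P_T(x)` be the probability to find the particle at `x` at an
independent exponential time of mean `T`. For `0 < σ ≤ σ₁(d)`, for **all** times
`T ≥ σ^{-(2 + 1/41)}`, without any upper restriction on the time, and for every coordinate `i`,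

`E ∑_x x_i² P_T(x) ≤ 84 d σ^{1/42} T²`.

The free motion has mean square displacement of order `T²`. The potential is unbounded: the proof
needs exponential moments of `P_T` which do not depend on the potential.
-/

set_option autoImplicit false

open scoped BigOperators ENNReal Topology
open MeasureTheory ProbabilityTheory Filter

namespace Pool.Agent.Results.MP_1906c1_mp.SubBallisticAllTimesGaussian

open Pool.Agent.Results.MP_1906c1_mp.ScaleAtEdge
open Pool.Agent.Results.MP_1906c1_mp.SpreadingAllTimesGaussian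

/-- **Theorem.** -/
theorem result (d : ℕ) (hd : 3 ≤ d) :
    ∃ σ1 : ℝ, 0 < σ1 ∧ ∀ σ : ℝ, 0 < σ → σ ≤ σ1 →
      (∀ ξ : (Fin d → ℤ) → ℝ, ∃ ψ, IsEvolution σ ξ ψ) ∧
      ∀ ψ : ((Fin d → ℤ) → ℝ) → ℝ → (Fin d → ℤ) → ℂ,
        (∀ᵐ ξ ∂(Measure.infinitePi fun _ : Fin d → ℤ => gaussianReal 0 1),
          IsEvolution σ ξ (ψ ξ)) →
        ∀ T : ℝ, σ ^ (-(2 + 1 / 41) : ℝ) ≤ T → ∀ i : Fin d,
          ∫⁻ ξ, ∑' x : Fin d → ℤ, ENNReal.ofReal ((x i : ℝ) ^ 2 * prob (ψ ξ) T x)
            ∂(Measure.infinitePi fun _ : Fin d → ℤ => gaussianReal 0 1) ≤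
            ENNReal.ofReal (84 * d * σ ^ (1 / 42 : ℝ) * T ^ 2) := by
  obtain ⟨c0, hc0, hc01, h⟩ := Pool.Agent.R988.Tor.S2Gw d hd
  refine ⟨c0, hc0, fun σ hσ hle => ⟨fun ξ => ?_, fun ψ hψ T hT i => ?_⟩⟩
  · obtain ⟨ψ, hψ⟩ := Pool.Agent.R988.Tor.exists_solU (fun x => 2 * (d : ℝ) - σ * ξ x) 0
    exact ⟨_, ofSol hψ⟩
  · have hψ' : ∀ᵐ ξ ∂(Measure.infinitePi fun _ : Fin d → ℤ => gaussianReal 0 1),
        Pool.Agent.TH794.QD.Sol d (fun x => 2 * (d : ℝ) - σ * ξ x) 0
          (fun t x => Complex.exp (-(2 * d * t : ℝ) * Complex.I) * (starRingEnd ℂ) (ψ ξ t x)) := by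
      filter_upwards [hψ] with ξ hξ
      exact toSol hξ
    have hTp : 0 < T := (Real.rpow_pos_of_pos hσ _).trans_le hT
    have hη : 1 / (2 * T) ≤ σ ^ (83 / 41 : ℝ) := by
      have e1 : (-(2 + 1 / 41) : ℝ) = -(83 / 41) := by norm_num
      rw [e1, Real.rpow_neg hσ.le] at hT
      rw [div_le_iff₀ (by positivity)]
      have hp : 0 < σ ^ (83 / 41 : ℝ) := Real.rpow_pos_of_pos hσ _
      have h3 := mul_le_mul_of_nonneg_left hT hp.le
      rw [mul_inv_cancel₀ hp.ne'] at h3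
      linarith
    have h3 := h σ hσ hle _ hψ' i (1 / (2 * T)) (by positivity) hη
    have e4 : ∀ (φ : ℝ → (Fin d → ℤ) → ℂ) (z : Fin d → ℤ),
        prob φ T z = Pool.Agent.R988.Tor.pb (1 / (2 * T))
          (fun t x => Complex.exp (-(2 * d * t : ℝ) * Complex.I) * (starRingEnd ℂ) (φ t x)) z := by
      intro φ z
      unfold prob Pool.Agent.R988.Tor.pb
      have e5 : 2 * (1 / (2 * T)) = 1 / T := by field_simp
      rw [e5]
      congr 1
      refine integral_congr_ae (Eventually.of_forall fun t => ?_)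
      simp only
      rw [norm_gauge]
      congr 2
      ring
    simp only [e4]
    refine h3.trans (le_of_eq ?_)
    congr 1
    field_simp
    ring

end Pool.Agent.Results.MP_1906c1_mp.SubBallisticAllTimesGaussian
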